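import Mathlib
import Pool.Agent.H35.Turan

set_option autoImplicit false

open Finset Filter

namespace Pool.Agent.Results.MP_ea5d3c_co.LogBound

/-- `E` is (the edge set of) an `r`-graph on the vertex set `Fin n` with independence number
less than `k`. -/
def IsTuranSystem (n k r : ℕ) (E : Finset (Finset (Fin n))) : Prop :=
  (∀ e ∈ E, e.card = r) ∧ ∀ I : Finset (Fin n), (∀ e ∈ E, ¬ e ⊆ I) → I.card < k

/-- The Turán number `T(n,k,r)`: the least number of edges of an `r`-graph on `n` vertices with
independence number less than `k`. -/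
noncomputable def turanNumber (n k r : ℕ) : ℕ :=
  sInf {N : ℕ | ∃ E : Finset (Finset (Fin n)), IsTuranSystem n k r E ∧ E.card = N}

/-- The Turán density `t(k,r)`, written as a limsup (the ratio is nondecreasing in `n ≥ k`, so that
this is the limit). -/
noncomputable def turanDensity (k r : ℕ) : ℝ :=
  limsup (fun n : ℕ => (turanNumber n k r : ℝ) / (n.choose r : ℝ)) atTop

/-- The rescaled Turán density `t_*(α+1,r) = α^(r-1) / r! * t(α+1,r)`. -/
noncomputable def rescaled (α r : ℕ) : ℝ :=
  (α : ℝ) ^ (r - 1) / (r.factorial : ℝ) * turanDensity (α + 1) r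

/-- `t_*(r) = inf_{k > r} t_*(k,r)`, with `k = α + 1`. -/
noncomputable def tStar (r : ℕ) : ℝ := ⨅ α : {a : ℕ // r ≤ a}, rescaled α r

theorem turanNumber_le {n k r : ℕ} {E : Finset (Finset (Fin n))} (h : IsTuranSystem n k r E) :
    turanNumber n k r ≤ E.card := Nat.sInf_le ⟨E, h, rfl⟩

theorem turanNumber_le_choose {n k r : ℕ} (hrk : r ≤ k) : turanNumber n k r ≤ n.choose r := by
  have h : IsTuranSystem n k r (powersetCard r univ) := by
    constructor
    · intro e he
      exact (mem_powersetCard.mp he).2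
    · intro I hI
      by_contra hcon
      push Not at hcon
      obtain ⟨e, he1, he2⟩ := Finset.exists_subset_card_eq (hrk.trans hcon)
      exact hI e (mem_powersetCard.mpr ⟨subset_univ _, he2⟩) he1
  refine le_trans (turanNumber_le h) ?_
  rw [card_powersetCard, card_univ, Fintype.card_fin]

theorem density_bdd {k r : ℕ} (hrk : r ≤ k) (n : ℕ) :
    (turanNumber n k r : ℝ) / (n.choose r : ℝ) ≤ 1 := by
  rcases Nat.eq_zero_or_pos (n.choose r) with h | h
  · rw [h]; simp
  · rw [div_le_one (by exact_mod_cast h)]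
    exact_mod_cast turanNumber_le_choose hrk

theorem turanDensity_nonneg {k r : ℕ} (hrk : r ≤ k) : 0 ≤ turanDensity k r := by
  unfold turanDensity
  apply Filter.le_limsup_of_frequently_le
  · apply Filter.Frequently.of_forall
    intro n
    positivity
  · exact ⟨1, by
      rw [Filter.eventually_map]
      exact Filter.Eventually.of_forall (density_bdd hrk)⟩

/-- The finite bound: parameters. -/
theorem finite_bound (r : ℕ) (hr : 2 ≤ r) (n : ℕ) :
    (turanNumber n (4 * r ^ 2 + 1) r : ℝ) ≤
      (2 + 32 * Real.log r) * ((n : ℝ) + (r : ℝ) ^ 15) ^ r / ((4 * r ^ 2 : ℕ) : ℝ) ^ (r - 1) := by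
  classical
  set α : ℕ := 4 * r ^ 2 with hα
  set m : ℕ := r ^ 15 with hm
  set j : ℕ := r / 2 with hj
  set N : ℕ := n / m + 1 with hN
  have hj1 : 1 ≤ j := by omega
  have hj2 : 2 * j ≤ r := by omega
  have hj3 : r ≤ 3 * j := by omega
  have hrpos : 0 < r := by omega
  have hmpos : 0 < m := by positivity
  have hr2 : r * 2 ≤ r ^ 2 := by nlinarith
  have hαr : r + r ≤ α := by rw [hα]; nlinarith
  set k' : ℕ := α + 2 - j with hk'
  have hk'r : r ≤ k' := by omega
  have hαm : α + 2 ≤ m := by
    have h1 : (2 : ℕ) ^ 13 ≤ r ^ 13 := Nat.pow_le_pow_left hr 13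
    have h2 : r ^ 15 = r ^ 13 * r ^ 2 := by ring
    rw [hm, h2, hα]
    nlinarith
  have hk'm : k' ≤ m := by omega
  -- the small system
  obtain ⟨H, hH, hHcard⟩ := Pool.Agent.H35.Turan.exists_system m k' r hk'r hk'm
  -- the cell map
  set c : Fin n → Fin m := fun x => ⟨x.val % m, Nat.mod_lt _ hmpos⟩ with hc
  have hfib : ∀ y : Fin m, ((univ : Finset (Fin n)).filter (fun x => c x = y)).card ≤ N := by
    intro y
    calc ((univ : Finset (Fin n)).filter (fun x => c x = y)).card
        ≤ (Finset.range N).card := by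
          apply Finset.card_le_card_of_injOn (fun x => x.val / m)
          · intro x _
            rw [Finset.mem_coe, Finset.mem_range]
            show x.val / m < N
            have : x.val / m ≤ n / m := Nat.div_le_div_right x.isLt.le
            rw [hN]
            exact Nat.lt_succ_of_le this
          · intro x hx x' hx' hxx'
            rw [Finset.mem_coe, Finset.mem_filter] at hx hx'
            have h1 : x.val % m = x'.val % m := by
              have := hx.2.trans hx'.2.symm
              simpa [hc] using this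
            have h2 : x.val / m = x'.val / m := hxx'
            apply Fin.ext
            rw [← Nat.mod_add_div x.val m, ← Nat.mod_add_div x'.val m, h1, h2]
      _ = N := Finset.card_range N
  have hsys := Pool.Agent.H35.Turan.compose_system c r j k' hj2 (by omega) hj1 H hH
  have hkk : k' + j - 1 = α + 1 := by omega
  rw [hkk] at hsys
  have hT : turanNumber n (α + 1) r ≤
      (Pool.Agent.H35.Turan.famI c r (r - j)).card + (Pool.Agent.H35.Turan.famII c r H).card :=
    le_trans (turanNumber_le (E := _) hsys) (Finset.card_union_le _ _)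
  have hI := Pool.Agent.H35.Turan.famI_card c r (r - j) N (by omega) hfib
  have hII := Pool.Agent.H35.Turan.famII_card c r N H hH.1 hfib
  -- real numbers
  have hmN : ((m * N : ℕ) : ℝ) ≤ (n : ℝ) + (r : ℝ) ^ 15 := by
    have h1 : m * N ≤ n + m := by
      rw [hN, mul_add, mul_one]
      have := Nat.mul_div_le n m
      omega
    have h2 : ((m * N : ℕ) : ℝ) ≤ ((n + m : ℕ) : ℝ) := by exact_mod_cast h1
    rw [hm] at h2 ⊢
    push_cast at h2 ⊢
    exact h2
  have hαpos : (0 : ℝ) < α := by
    have : 0 < α := by omega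
    exact_mod_cast this
  have hαpow : (0 : ℝ) < (α : ℝ) ^ (r - 1) := by positivity
  -- (I)
  have hIr : ((Pool.Agent.H35.Turan.famI c r (r - j)).card : ℝ) * (α : ℝ) ^ (r - 1) ≤
      ((m * N : ℕ) : ℝ) ^ r := by
    have h1 : (Pool.Agent.H35.Turan.famI c r (r - j)).card * α ^ (r - 1) ≤ (m * N) ^ r := by
      calc (Pool.Agent.H35.Turan.famI c r (r - j)).card * α ^ (r - 1)
          ≤ (m.choose (r - j) * ((r - j) * N).choose r) * α ^ (r - 1) :=
            Nat.mul_le_mul_right _ hI
        _ ≤ (m ^ (r - j) * ((r - j) * N) ^ r) * α ^ (r - 1) := by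
            apply Nat.mul_le_mul_right
            exact Nat.mul_le_mul (Nat.choose_le_pow _ _) (Nat.choose_le_pow _ _)
        _ ≤ (m ^ (r - j) * (r * N) ^ r) * α ^ r := by
            apply Nat.mul_le_mul
            · apply Nat.mul_le_mul_left
              apply Nat.pow_le_pow_left
              exact Nat.mul_le_mul_right _ (Nat.sub_le _ _)
            · exact Nat.pow_le_pow_right (by omega) (Nat.sub_le _ _)
        _ = m ^ (r - j) * N ^ r * (r * α) ^ r := by rw [mul_pow, mul_pow]; ring
        _ ≤ m ^ (r - j) * N ^ r * m ^ j := by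
            apply Nat.mul_le_mul_left
            have h2 : r * α ≤ r ^ 5 := by
              rw [hα]
              have : 4 ≤ r ^ 2 := by nlinarith
              calc r * (4 * r ^ 2) = 4 * r ^ 3 := by ring
                _ ≤ r ^ 2 * r ^ 3 := Nat.mul_le_mul_right _ this
                _ = r ^ 5 := by ring
            calc (r * α) ^ r ≤ (r ^ 5) ^ r := Nat.pow_le_pow_left h2 _
              _ = r ^ (5 * r) := by rw [← pow_mul]
              _ ≤ r ^ (15 * j) := Nat.pow_le_pow_right hrpos (by omega)
              _ = m ^ j := by rw [hm, ← pow_mul]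
        _ = (m * N) ^ r := by
            have h3 : m ^ r = m ^ (r - j) * m ^ j := by
              rw [← pow_add]; congr 1; omega
            rw [mul_pow, h3]; ring
    exact_mod_cast h1
  -- (II)
  have hIIr : ((Pool.Agent.H35.Turan.famII c r H).card : ℝ) * (α : ℝ) ^ (r - 1) ≤
      (1 + 32 * Real.log r) * ((m * N : ℕ) : ℝ) ^ r := by
    have hlogr : 0 ≤ Real.log r := Real.log_natCast_nonneg r
    have hNpos : (0 : ℝ) < N := by rw [hN]; positivity
    have hmr : (0 : ℝ) < m := by exact_mod_cast hmpos
    -- log of binomial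
    have hlog : Real.log (m.choose k') ≤ ((α : ℝ) + 1) * (15 * Real.log r) := by
      have h1 : (m.choose k' : ℝ) ≤ (m : ℝ) ^ k' := by exact_mod_cast Nat.choose_le_pow m k'
      have h2 : (0 : ℝ) < m.choose k' := by exact_mod_cast Nat.choose_pos hk'm
      calc Real.log (m.choose k') ≤ Real.log ((m : ℝ) ^ k') := Real.log_le_log h2 h1
        _ = k' * Real.log m := Real.log_pow _ _
        _ = k' * (15 * Real.log r) := by
            rw [hm]; push_cast; rw [Real.log_pow]; push_cast; ring
        _ ≤ ((α : ℝ) + 1) * (15 * Real.log r) := by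
            apply mul_le_mul_of_nonneg_right _ (by positivity)
            have : k' ≤ α + 1 := by omega
            exact_mod_cast this
    -- ratio of binomials
    have hratio : ((m.choose r : ℝ) / (k'.choose r : ℝ)) * (α : ℝ) ^ r ≤ 2 * (m : ℝ) ^ r := by
      have hkpos : (0 : ℝ) < k'.choose r := by exact_mod_cast Nat.choose_pos hk'r
      have h1 : (m.choose r : ℝ) ≤ (m : ℝ) ^ r / r.factorial := Nat.choose_le_pow_div r m
      have h2 : ((k' + 1 - r : ℕ) : ℝ) ^ r ≤ (r.factorial : ℝ) * k'.choose r := by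
        have := Nat.pow_sub_le_descFactorial k' r
        have h3 := Nat.descFactorial_eq_factorial_mul_choose k' r
        rw [h3] at this
        exact_mod_cast this
      have hfac : (0 : ℝ) < r.factorial := by exact_mod_cast Nat.factorial_pos r
      -- α ^ r ≤ 2 (k'+1-r)^r
      have h4 : (α : ℝ) ^ r ≤ 2 * ((k' + 1 - r : ℕ) : ℝ) ^ r := by
        have h5 : (α : ℝ) * (1 - 1 / (2 * r)) ≤ ((k' + 1 - r : ℕ) : ℝ) := by
          have h6 : α ≤ (k' + 1 - r) + 2 * r := by omega
          have h7 : (α : ℝ) ≤ ((k' + 1 - r : ℕ) : ℝ) + 2 * r := by exact_mod_cast h6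
          have h8 : (α : ℝ) * (1 / (2 * r)) = 2 * r := by
            rw [hα]; push_cast
            have : (r : ℝ) ≠ 0 := by positivity
            field_simp; ring
          rw [mul_sub, mul_one, h8]
          linarith
        have h9 : (0 : ℝ) ≤ 1 - 1 / (2 * r) := by
          have h10 : (1 : ℝ) / (2 * r) ≤ 1 := by
            rw [div_le_one (by positivity)]
            have : (1 : ℝ) ≤ r := by exact_mod_cast hrpos
            linarith
          linarith
        have hbern : (1 : ℝ) / 2 ≤ (1 - 1 / (2 * r)) ^ r := by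
          have h11 := one_add_mul_le_pow (a := -(1 / (2 * (r : ℝ)))) (by
            have h10 : (1 : ℝ) / (2 * r) ≤ 1 := by
              rw [div_le_one (by positivity)]
              have : (1 : ℝ) ≤ r := by exact_mod_cast hrpos
              linarith
            linarith) r
          have h12 : (1 : ℝ) + r * -(1 / (2 * (r : ℝ))) = 1 / 2 := by
            have : (r : ℝ) ≠ 0 := by positivity
            field_simp; norm_num
          rw [h12] at h11
          have h13 : (1 : ℝ) + -(1 / (2 * (r : ℝ))) = 1 - 1 / (2 * r) := by ring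
          rw [h13] at h11
          exact h11
        calc (α : ℝ) ^ r = 2 * ((α : ℝ) ^ r * (1 / 2)) := by ring
          _ ≤ 2 * ((α : ℝ) ^ r * (1 - 1 / (2 * r)) ^ r) := by
              apply mul_le_mul_of_nonneg_left _ (by norm_num)
              exact mul_le_mul_of_nonneg_left hbern (by positivity)
          _ = 2 * ((α : ℝ) * (1 - 1 / (2 * r))) ^ r := by rw [mul_pow]
          _ ≤ 2 * ((k' + 1 - r : ℕ) : ℝ) ^ r := by
              apply mul_le_mul_of_nonneg_left _ (by norm_num)
              exact pow_le_pow_left₀ (by positivity) h5 r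
      rw [div_mul_eq_mul_div, div_le_iff₀ hkpos]
      calc (m.choose r : ℝ) * (α : ℝ) ^ r
          ≤ ((m : ℝ) ^ r / r.factorial) * (2 * ((k' + 1 - r : ℕ) : ℝ) ^ r) :=
            mul_le_mul h1 h4 (by positivity) (by positivity)
        _ ≤ ((m : ℝ) ^ r / r.factorial) * (2 * ((r.factorial : ℝ) * k'.choose r)) := by
            apply mul_le_mul_of_nonneg_left _ (by positivity)
            linarith
        _ = 2 * (m : ℝ) ^ r * k'.choose r := by field_simp
    have h1 : ((Pool.Agent.H35.Turan.famII c r H).card : ℝ) ≤ H.card * (N : ℝ) ^ r := by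
      exact_mod_cast hII
    have hA : (α : ℝ) ^ r = (α : ℝ) ^ (r - 1) * α := by
      rw [← pow_succ]; congr 1; omega
    have hone : (α : ℝ) ^ (r - 1) ≤ (m : ℝ) ^ r := by
      have h2 : α ^ (r - 1) ≤ m ^ r := by
        calc α ^ (r - 1) ≤ m ^ (r - 1) := Nat.pow_le_pow_left (by omega) _
          _ ≤ m ^ r := Nat.pow_le_pow_right hmpos (Nat.sub_le _ _)
      exact_mod_cast h2
    have hratio2 : ((m.choose r : ℝ) / (k'.choose r : ℝ)) * (α : ℝ) ^ (r - 1) ≤
        2 * (m : ℝ) ^ r / α := by
      rw [le_div_iff₀ hαpos, mul_assoc, ← hA]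
      exact hratio
    have hlogterm : Real.log (m.choose k') * ((m.choose r : ℝ) / (k'.choose r : ℝ)) *
        (α : ℝ) ^ (r - 1) ≤ 32 * Real.log r * (m : ℝ) ^ r := by
      have hlognn : 0 ≤ Real.log (m.choose k') := by
        apply Real.log_nonneg
        exact_mod_cast Nat.choose_pos hk'm
      calc Real.log (m.choose k') * ((m.choose r : ℝ) / (k'.choose r : ℝ)) * (α : ℝ) ^ (r - 1)
          = Real.log (m.choose k') * (((m.choose r : ℝ) / (k'.choose r : ℝ)) *
              (α : ℝ) ^ (r - 1)) := by ring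
        _ ≤ (((α : ℝ) + 1) * (15 * Real.log r)) * (2 * (m : ℝ) ^ r / α) := by
            apply mul_le_mul hlog hratio2 (by positivity) (by positivity)
        _ = 30 * (((α : ℝ) + 1) / α) * Real.log r * (m : ℝ) ^ r := by ring
        _ ≤ 32 * Real.log r * (m : ℝ) ^ r := by
            apply mul_le_mul_of_nonneg_right _ (by positivity)
            apply mul_le_mul_of_nonneg_right _ hlogr
            have h16 : (16 : ℝ) ≤ α := by
              have : 16 ≤ α := by rw [hα]; nlinarith
              exact_mod_cast this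
            rw [mul_div_assoc', div_le_iff₀ hαpos]
            linarith
    calc ((Pool.Agent.H35.Turan.famII c r H).card : ℝ) * (α : ℝ) ^ (r - 1)
        ≤ (H.card * (N : ℝ) ^ r) * (α : ℝ) ^ (r - 1) :=
          mul_le_mul_of_nonneg_right h1 hαpow.le
      _ ≤ ((Real.log (m.choose k') * ((m.choose r : ℝ) / (k'.choose r : ℝ)) + 1) * (N : ℝ) ^ r) *
            (α : ℝ) ^ (r - 1) := by
          apply mul_le_mul_of_nonneg_right _ hαpow.le
          exact mul_le_mul_of_nonneg_right hHcard (by positivity)
      _ = (Real.log (m.choose k') * ((m.choose r : ℝ) / (k'.choose r : ℝ)) * (α : ℝ) ^ (r - 1)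
            + (α : ℝ) ^ (r - 1)) * (N : ℝ) ^ r := by ring
      _ ≤ (32 * Real.log r * (m : ℝ) ^ r + (m : ℝ) ^ r) * (N : ℝ) ^ r := by
          apply mul_le_mul_of_nonneg_right _ (by positivity)
          linarith
      _ = (1 + 32 * Real.log r) * ((m * N : ℕ) : ℝ) ^ r := by
          push_cast; rw [mul_pow]; ring
  rw [le_div_iff₀ hαpow]
  have hlogr : 0 ≤ Real.log r := Real.log_natCast_nonneg r
  calc (turanNumber n (α + 1) r : ℝ) * (α : ℝ) ^ (r - 1)
      ≤ (((Pool.Agent.H35.Turan.famI c r (r - j)).card : ℝ) +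
          ((Pool.Agent.H35.Turan.famII c r H).card : ℝ)) * (α : ℝ) ^ (r - 1) := by
        apply mul_le_mul_of_nonneg_right _ hαpow.le
        exact_mod_cast hT
    _ ≤ (2 + 32 * Real.log r) * ((m * N : ℕ) : ℝ) ^ r := by
        rw [add_mul]
        linarith
    _ ≤ (2 + 32 * Real.log r) * ((n : ℝ) + (r : ℝ) ^ 15) ^ r := by
        apply mul_le_mul_of_nonneg_left _ (by positivity)
        exact pow_le_pow_left₀ (by positivity) hmN r

/-- The comparison ratio tends to `r!`. -/
theorem tendsto_ratio (r : ℕ) (A : ℝ) :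
    Tendsto (fun n : ℕ => ((n : ℝ) + A) ^ r / (n.choose r : ℝ)) atTop (nhds (r.factorial : ℝ)) := by
  have h1 : ∀ᶠ n : ℕ in atTop, ((n : ℝ) + A) ^ r / (n.choose r : ℝ) =
      (r.factorial : ℝ) * ∏ i ∈ Finset.range r, (((n : ℝ) + A) / ((n : ℝ) - i)) := by
    filter_upwards [eventually_ge_atTop (r + 1)] with n hn
    have h2 : (n.choose r : ℝ) = (∏ i ∈ Finset.range r, ((n : ℝ) - i)) / r.factorial := by
      have h3 := Nat.descFactorial_eq_factorial_mul_choose n r
      have h4 : ((n.descFactorial r : ℕ) : ℝ) = ∏ i ∈ Finset.range r, ((n : ℝ) - i) := by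
        rw [Nat.descFactorial_eq_prod_range]
        push_cast
        apply Finset.prod_congr rfl
        intro i hi
        rw [Nat.cast_sub]
        have := Finset.mem_range.mp hi
        omega
      have hf : (r.factorial : ℝ) ≠ 0 := by exact_mod_cast Nat.factorial_ne_zero r
      rw [← h4, h3]
      push_cast
      field_simp
    have h5 : ∏ i ∈ Finset.range r, ((n : ℝ) - i) ≠ 0 := by
      rw [Finset.prod_ne_zero_iff]
      intro i hi
      have h6 := Finset.mem_range.mp hi
      have h7 : (i : ℝ) < n := by exact_mod_cast (by omega : i < n)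
      linarith
    rw [h2, Finset.prod_div_distrib, Finset.prod_const, Finset.card_range]
    have hf : (r.factorial : ℝ) ≠ 0 := by exact_mod_cast Nat.factorial_ne_zero r
    field_simp
  rw [tendsto_congr' h1]
  have h2 : Tendsto (fun n : ℕ => ∏ i ∈ Finset.range r, (((n : ℝ) + A) / ((n : ℝ) - i))) atTop
      (nhds (∏ i ∈ Finset.range r, (1 : ℝ))) := by
    apply tendsto_finsetProd
    intro i _
    have h3 : Tendsto (fun n : ℕ => (n : ℝ)) atTop atTop := tendsto_natCast_atTop_atTop
    have h4 : Tendsto (fun x : ℝ => (x + A) / (x - i)) atTop (nhds 1) := by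
      have h5 : Tendsto (fun x : ℝ => 1 + (A + i) / (x - i)) atTop (nhds (1 + 0)) := by
        apply Tendsto.const_add
        apply Tendsto.div_atTop tendsto_const_nhds
        exact tendsto_atTop_add_const_right _ _ tendsto_id
      rw [add_zero] at h5
      refine h5.congr' ?_
      filter_upwards [eventually_gt_atTop (i : ℝ)] with x hx
      have : x - i ≠ 0 := by linarith
      field_simp
      ring
    exact h4.comp h3
  simp only [Finset.prod_const_one] at h2
  simpa using h2.const_mul (r.factorial : ℝ)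

theorem density_bound (r : ℕ) (hr : 2 ≤ r) :
    turanDensity (4 * r ^ 2 + 1) r ≤
      (2 + 32 * Real.log r) / ((4 * r ^ 2 : ℕ) : ℝ) ^ (r - 1) * r.factorial := by
  unfold turanDensity
  set K : ℝ := (2 + 32 * Real.log r) / ((4 * r ^ 2 : ℕ) : ℝ) ^ (r - 1) with hK
  have h1 : ∀ n : ℕ, (turanNumber n (4 * r ^ 2 + 1) r : ℝ) / (n.choose r : ℝ) ≤
      K * (((n : ℝ) + (r : ℝ) ^ 15) ^ r / (n.choose r : ℝ)) := by
    intro n
    rw [← mul_div_assoc]
    apply div_le_div_of_nonneg_right _ (Nat.cast_nonneg _)
    have := finite_bound r hr n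
    rw [hK, div_mul_eq_mul_div]
    exact this
  have h2 := (tendsto_ratio r ((r : ℝ) ^ 15)).const_mul K
  rw [← h2.limsup_eq]
  refine Filter.limsup_le_limsup (Filter.Eventually.of_forall h1) ?_ ?_
  · apply Filter.IsCoboundedUnder.of_frequently_ge (a := 0)
    apply Filter.Frequently.of_forall
    intro n
    positivity
  · exact h2.isBoundedUnder_le

/-- `t_*(r) ≤ 2 + 32 log r` for every `r ≥ 2`. -/
theorem result : ∀ r : ℕ, 2 ≤ r → tStar r ≤ 2 + 32 * Real.log r := by
  intro r hr
  have hrα : r ≤ 4 * r ^ 2 := by nlinarith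
  have hbdd : BddBelow (Set.range fun α : {a : ℕ // r ≤ a} => rescaled α r) := by
    refine ⟨0, ?_⟩
    rintro _ ⟨α, rfl⟩
    have hα : r ≤ (α : ℕ) + 1 := le_trans α.2 (Nat.le_succ _)
    have := turanDensity_nonneg hα
    simp only [rescaled]
    positivity
  have h1 : tStar r ≤ rescaled (4 * r ^ 2) r := ciInf_le hbdd ⟨4 * r ^ 2, hrα⟩
  refine le_trans h1 ?_
  unfold rescaled
  have h2 := density_bound r hr
  have hpos : (0 : ℝ) < ((4 * r ^ 2 : ℕ) : ℝ) ^ (r - 1) := by
    have : 0 < 4 * r ^ 2 := by positivity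
    have h3 : (0 : ℝ) < ((4 * r ^ 2 : ℕ) : ℝ) := by exact_mod_cast this
    positivity
  have hf : (0 : ℝ) < r.factorial := by exact_mod_cast Nat.factorial_pos r
  calc ((4 * r ^ 2 : ℕ) : ℝ) ^ (r - 1) / (r.factorial : ℝ) * turanDensity (4 * r ^ 2 + 1) r
      ≤ ((4 * r ^ 2 : ℕ) : ℝ) ^ (r - 1) / (r.factorial : ℝ) *
          ((2 + 32 * Real.log r) / ((4 * r ^ 2 : ℕ) : ℝ) ^ (r - 1) * r.factorial) :=
        mul_le_mul_of_nonneg_left h2 (by positivity)
    _ = 2 + 32 * Real.log r := by
        field_simp

end Pool.Agent.Results.MP_ea5d3c_co.LogBound
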